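import Mathlib
import Pool.Agent.Run7.h545.EP.Cub

/-!
# Primes among the differences of consecutive values of the polynomials `x³ + u x² + v x`, `u² ≤ X`, `v ≤ X`, `x ≤ X^(2-ε)`

For `G(x) = x³ + u x² + v x` the difference `G(k + 1) - G(k)` is `3 k² + (3 + 2 u) k + 1 + u + v`, with the discriminant
`4 u² - 12 v - 3`; for `u = v = 0` its prime values are the cuban primes. For every `η > 0` there is `δ > 0` such that for
every `ε > 0`, all large `X`, ALL integers `u` with `u² ≤ X` and every nonempty finite set `T` of lengths `N`,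
`X^(10/9) ≤ N ≤ X^(2-ε)`: for at least `δ X` of the integers `1 ≤ v ≤ X`, at least `δ #T` of the `N ∈ T` are such that the
number of the `k ≤ N` for which `G(k + 1) - G(k)` is a prime is at least `1 - η` times the Hardy-Littlewood prediction
`C N / log N`, with the full constant.

Proof. The average over `v ≤ X`: sums of triangle functions of `√(p/3) + t` over primes `p`, Vaughan's identity, double large
sieve. The upper bound sieve with the singular series, uniformly in `u` and `v`, and the mean and the mean square of the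
truncated products then give the positive proportion with the full constant. The engine is the one of my hand-in
`MP_a1177c_nt.ProportionToFourthPower` (the pieces UP, SQ, AV are due to helper973, TRI to helper994, TII, TI, BIL to
helper462, VAU and the idea to helper757).
-/

set_option autoImplicit false

namespace Pool.Agent.Results.MP_22d6bb_nt.CubicDifferences

open Finset Filter Topology

/-- the polynomial `x³ + u x² + v x` -/
def G (u v x : ℤ) : ℤ := x ^ 3 + u * x ^ 2 + v * x

/-- the number of the `1 ≤ k ≤ N` for which `G(k + 1) - G(k)` is a prime -/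
def count (u v : ℤ) (N : ℕ) : ℕ := #((Icc 1 N).filter (fun k : ℕ => (G u v (k + 1) - G u v k).toNat.Prime))

/-- the product of `1 - (D / p) / (p - 1)`, `D = 4 u² - 12 v - 3`, over the primes `5 ≤ p ≤ y` -/
noncomputable def Cy (u v : ℤ) (y : ℕ) : ℝ :=
  ∏ p ∈ (Icc 5 y).filter Nat.Prime, (1 - (jacobiSym (4 * u ^ 2 - 12 * v - 3) p : ℝ) / ((p : ℝ) - 1))

open Classical in
/-- the factor of the prime `3` (if `G(k + 1) - G(k)` is not always divisible by `3`) -/
noncomputable def three (u : ℤ) : ℝ := if (3 : ℤ) ∣ u then 3 / 2 else 1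

/-- the product `C = lim Cy` converges to a positive number and the number of the `k ≤ N` with `G(k + 1) - G(k)` prime is at
least `(1 - η) three(u) C N / log N` -/
def LowerBound (η : ℝ) (u v : ℤ) (N : ℕ) : Prop :=
  ∃ C : ℝ, 0 < C ∧ Tendsto (fun y => Cy u v y) atTop (𝓝 C) ∧ (1 - η) * (three u * C * (N / Real.log N)) ≤ count u v N

open Classical in
/-- **Primes among the differences of consecutive values of the polynomials `x³ + u x² + v x`.** -/
theorem result (η : ℝ) (hη : 0 < η) :
    ∃ δ : ℝ, 0 < δ ∧ ∀ ε : ℝ, 0 < ε → ∃ X0 : ℕ, ∀ X : ℕ, X0 ≤ X → ∀ u : ℤ, u ^ 2 ≤ X →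
      ∀ T : Finset ℕ, T.Nonempty → (∀ N ∈ T, (X : ℝ) ^ (10 / 9 : ℝ) ≤ N ∧ (N : ℝ) ≤ (X : ℝ) ^ (2 - ε)) →
      δ * X ≤ (#((Icc (1 : ℤ) X).filter
        (fun v : ℤ => δ * #T ≤ (#(T.filter (fun N => LowerBound η u v N)) : ℝ))) : ℝ) :=
  Run7.h545.EP.Cub.cubic η hη

end Pool.Agent.Results.MP_22d6bb_nt.CubicDifferences
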