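import Mathlib
import Pool.Agent.Run7.h373.QE.Gen
import Pool.Agent.Run7.h373.QE.Dif

/-!
# Primes among the differences of consecutive values of `G(x) + v x`, in every short window, for almost all `v`

Let `G` be an integer polynomial of degree `d ≥ 3`, for instance `G = x³`, with a leading coefficient of absolute value at
most `(log N)^C`; the other coefficients are arbitrary. For EVERY window `(a, a + H]` of integers on which the differences
`G(m + 1) - G(m)` are at most `N (log N)^C` in absolute value and whose length is only `H ≥ N^(1/(3(d-1))) (log N)^B`, and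
for all but `N / (log N)^U` of the `|v| ≤ N`, the number of the primes among the differences of consecutive values of
the polynomial `G(x) + v x` at the integers of the window is given by the formula of Bateman and Horn. For `G = x³` these
are the numbers `3 m² + 3 m + 1 + v` (the cuban primes for `v = 0`), and the windows have `N^(1/6) (log N)^B` integers, anywhere in
`|m| ≤ √N (log N)^C`.

Proof. The theorem on the values `F(m) + v` in windows behind my hand-in `MP_4d57ea_nt.EveryWindow`, valid for all degrees,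
for `F(x) = G(x + 1) - G(x)`, a polynomial of degree `d - 1` with the leading coefficient `d` times that of `G`.
-/

set_option autoImplicit false

namespace Pool.Agent.Results.MP_22d6bb_nt.DifferencesEveryWindow

open Finset
open Polynomial (X)
open scoped Polynomial

/-- the difference of the values of the polynomial `G(x) + v x` at `m + 1` and at `m` -/
def diff (G : ℤ[X]) (v m : ℤ) : ℤ := (G.eval (m + 1) + v * (m + 1)) - (G.eval m + v * m)

/-- the number of the residues `r` modulo `p` for which `p` divides the difference at `r` -/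
def rho (G : ℤ[X]) (v : ℤ) (p : ℕ) : ℕ := #((range p).filter (fun r : ℕ => (p : ℤ) ∣ diff G v r))

/-- the product of `(p - rho(p)) / (p - 1)` over the primes `p ≤ z` -/
noncomputable def S (G : ℤ[X]) (v : ℤ) (z : ℕ) : ℝ :=
  ∏ p ∈ (range (z + 1)).filter Nat.Prime, ((p : ℝ) - rho G v p) / ((p : ℝ) - 1)

/-- the number of the integers `a < m ≤ b` for which `s` times the difference at `m` is a (positive) prime -/
noncomputable def P (G : ℤ[X]) (s v a b : ℤ) : ℕ := #((Ioc a b).filter (fun m : ℤ => Nat.Prime (s * diff G v m).toNat))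

/-- the sum of `1 / log (s diff)` over the integers `a < m ≤ b` with `s diff ≥ 2` -/
noncomputable def M (G : ℤ[X]) (s v a b : ℤ) : ℝ :=
  ∑ m ∈ (Ioc a b).filter (fun m : ℤ => 2 ≤ s * diff G v m), 1 / Real.log ((s * diff G v m : ℤ) : ℝ)

lemma diff_eq (G : ℤ[X]) (v m : ℤ) : diff G v m = (Run7.h373.QE.Dif.DG G).eval m + v := by
  unfold diff
  rw [Run7.h373.QE.Dif.DG_eval]
  ring

lemma rho_eq (G : ℤ[X]) (v : ℤ) (p : ℕ) : rho G v p = Run7.h373.QE.Gen.rho (Run7.h373.QE.Dif.DG G) v p := by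
  unfold rho Run7.h373.QE.Gen.rho
  simp only [diff_eq]

lemma S_eq (G : ℤ[X]) (v : ℤ) (z : ℕ) : S G v z = Run7.h373.QE.Gen.S (Run7.h373.QE.Dif.DG G) v z := by
  unfold S Run7.h373.QE.Gen.S
  simp only [rho_eq]

lemma P_eq (G : ℤ[X]) (s v a b : ℤ) : P G s v a b = Run7.h373.QE.Gen.P (Run7.h373.QE.Dif.DG G) s v a b := by
  unfold P Run7.h373.QE.Gen.P
  simp only [diff_eq]

lemma M_eq (G : ℤ[X]) (s v a b : ℤ) : M G s v a b = Run7.h373.QE.Gen.M (Run7.h373.QE.Dif.DG G) s v a b := by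
  unfold M Run7.h373.QE.Gen.M
  simp only [diff_eq]

/-- the general statement -/
theorem main (d : ℕ) (hd : 3 ≤ d) (U C : ℕ) : ∃ B X₀ : ℕ, ∀ N : ℕ, X₀ ≤ N → ∀ G : ℤ[X], G.natDegree = d →
    |(G.leadingCoeff : ℝ)| ≤ Real.log N ^ C → ∀ (a : ℤ) (H : ℕ),
    (N : ℝ) ^ (1 / (3 * ((d : ℝ) - 1))) * Real.log N ^ B ≤ H →
    (∀ m ∈ Ioc a (a + H), |((G.eval (m + 1) - G.eval m : ℤ) : ℝ)| ≤ N * Real.log N ^ C) →
    ∃ Bad ⊆ Icc (-(N : ℤ)) N, (#Bad : ℝ) ≤ N / Real.log N ^ U ∧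
    ∀ v ∈ Icc (-(N : ℤ)) N, v ∉ Bad → (∀ p : ℕ, p.Prime → ∃ m : ℤ, ¬ (p : ℤ) ∣ diff G v m) →
    ∀ z : ℕ, Real.log N ^ B ≤ z → z ^ 3 ≤ N → 0 < S G v z ∧
    ∀ s : ℤ, (s = 1 ∨ s = -1) →
      |(P G s v a (a + H) : ℝ) - S G v z * M G s v a (a + H)| ≤ S G v z * H / Real.log N ^ U := by
  obtain ⟨e, he⟩ : ∃ e, d = e + 1 := ⟨d - 1, by omega⟩
  obtain ⟨B, X₀, h0⟩ := Run7.h373.QE.Gen.every e (by omega) U (C + 1)
  obtain ⟨X₁, h1⟩ := Run7.h385.CR.ev_lge (d + 1)
  refine ⟨B, X₀ + X₁, fun N hN G hG hGl a H hH hv => ?_⟩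
  have hL := h1 N (by omega)
  have hd0 : (0 : ℝ) ≤ d := Nat.cast_nonneg _
  have hL0 : 0 < Real.log N := by linarith
  have hL1 : 1 ≤ Real.log N := by linarith
  have hG' : G.natDegree = e + 1 := by rw [hG, he]
  have her : (e : ℝ) = d - 1 := by rw [he]; push_cast; ring
  obtain ⟨Bad, k1, k2, k3⟩ := h0 N (by omega) (Run7.h373.QE.Dif.DG G) (Run7.h373.QE.Dif.DG_deg G e hG') (by
      rw [Run7.h373.QE.Dif.DG_lead G e hG']
      push_cast
      rw [abs_mul, her, sub_add_cancel, abs_of_nonneg hd0, pow_succ, mul_comm]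
      exact mul_le_mul hGl (by linarith) hd0 (by positivity)) a H (by
      rw [her]
      exact hH) (by
      intro m hm
      rw [Run7.h373.QE.Dif.DG_eval]
      refine (hv m hm).trans ?_
      apply mul_le_mul_of_nonneg_left _ (Nat.cast_nonneg _)
      exact pow_le_pow_right₀ hL1 (by omega))
  refine ⟨Bad, k1, k2, fun v hv hvB hadm z hz1 hz2 => ?_⟩
  obtain ⟨m1, m2⟩ := k3 v hv hvB (fun p hp => by
    obtain ⟨m, hm⟩ := hadm p hp
    exact ⟨m, by rw [← diff_eq]; exact hm⟩) z hz1 hz2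
  rw [S_eq]
  refine ⟨m1, fun s hs => ?_⟩
  rw [P_eq, M_eq]
  exact m2 s hs

lemma cube_diff (v m : ℤ) : diff (X ^ 3) v m = 3 * m ^ 2 + 3 * m + 1 + v := by
  unfold diff
  simp only [Polynomial.eval_pow, Polynomial.eval_X]
  ring

/-- the local condition for the cubes -/
lemma cube_adm (v : ℤ) (h2 : v % 2 = 0) (h3 : v % 3 ≠ 2) (p : ℕ) (hp : p.Prime) : ∃ m : ℤ, ¬ (p : ℤ) ∣ diff (X ^ 3) v m := by
  by_contra hc
  push Not at hc
  have g0 := hc 0
  have g1 := hc 1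
  have g2 := hc (-1)
  have g3 := hc 2
  rw [cube_diff] at g0 g1 g2 g3
  have e1 : (p : ℤ) ∣ 6 := by
    have := dvd_sub g1 g0
    have e : (3 * (1 : ℤ) ^ 2 + 3 * 1 + 1 + v) - (3 * (0 : ℤ) ^ 2 + 3 * 0 + 1 + v) = 6 := by ring
    rwa [e] at this
  have e2 : p ∣ 6 := by exact_mod_cast e1
  have hp6 : p = 2 ∨ p = 3 := by
    have h6 : p ∣ 2 * 3 := e2
    rcases (Nat.Prime.dvd_mul hp).1 h6 with h | h
    · left; exact (Nat.prime_dvd_prime_iff_eq hp Nat.prime_two).1 h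
    · right; exact (Nat.prime_dvd_prime_iff_eq hp Nat.prime_three).1 h
  rcases hp6 with h | h
  · rw [h] at g0
    norm_num at g0
    omega
  · rw [h] at g0
    norm_num at g0
    omega

/-- the case of the cubes -/
theorem cubes (U C : ℕ) : ∃ B X₀ : ℕ, ∀ N : ℕ, X₀ ≤ N → ∀ (a : ℤ) (H : ℕ),
    (N : ℝ) ^ ((1 : ℝ) / 6) * Real.log N ^ B ≤ H → |(a : ℝ)| + H ≤ √N * Real.log N ^ C →
    ∃ Bad ⊆ Icc (-(N : ℤ)) N, (#Bad : ℝ) ≤ N / Real.log N ^ U ∧
    ∀ v ∈ Icc (-(N : ℤ)) N, v ∉ Bad → v % 2 = 0 → v % 3 ≠ 2 → ∀ z : ℕ, Real.log N ^ B ≤ z → z ^ 3 ≤ N → 0 < S (X ^ 3) v z ∧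
      |(#((Ioc a (a + H)).filter (fun m : ℤ => Nat.Prime (3 * m ^ 2 + 3 * m + 1 + v).toNat)) : ℝ) -
        S (X ^ 3) v z * ∑ m ∈ (Ioc a (a + H)).filter (fun m : ℤ => 2 ≤ 3 * m ^ 2 + 3 * m + 1 + v),
          1 / Real.log ((3 * m ^ 2 + 3 * m + 1 + v : ℤ) : ℝ)| ≤ S (X ^ 3) v z * H / Real.log N ^ U := by
  obtain ⟨B, X₀, h0⟩ := main 3 le_rfl U (2 * C + 1)
  obtain ⟨X₁, h1⟩ := Run7.h385.CR.ev_lge 8
  refine ⟨B, X₀ + X₁, fun N hN a H hH hv => ?_⟩
  have hL := h1 N (by omega)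
  have hL0 : 0 < Real.log N := by linarith
  have hL1 : 1 ≤ Real.log N := by linarith
  have hN0 : (0 : ℝ) ≤ N := Nat.cast_nonneg _
  have hsN : √(N : ℝ) * √(N : ℝ) = N := Real.mul_self_sqrt hN0
  have hN1 : (1 : ℝ) ≤ N := by
    by_contra hc
    push Not at hc
    have : N = 0 := by
      have : N < 1 := by exact_mod_cast hc
      omega
    rw [this] at hL
    norm_num at hL
  have hs1 : 1 ≤ √(N : ℝ) := by rw [Real.one_le_sqrt]; exact hN1
  have hdeg : (X ^ 3 : ℤ[X]).natDegree = 3 := by rw [Polynomial.natDegree_X_pow]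
  have hlc : (X ^ 3 : ℤ[X]).leadingCoeff = 1 := Polynomial.leadingCoeff_X_pow 3
  obtain ⟨Bad, k1, k2, k3⟩ := h0 N (by omega) (X ^ 3) hdeg (by
      rw [hlc]
      simp only [Int.cast_one, abs_one]
      exact one_le_pow₀ hL1) a H (by
      refine le_trans (le_of_eq ?_) hH
      norm_num) (by
      intro m hm
      rw [mem_Ioc] at hm
      simp only [Polynomial.eval_pow, Polynomial.eval_X]
      have e : ((((m + 1) ^ 3 - m ^ 3 : ℤ)) : ℝ) = 3 * (m : ℝ) ^ 2 + 3 * m + 1 := by push_cast; ring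
      rw [e]
      obtain ⟨R, hR⟩ : ∃ R, R = √(N : ℝ) * Real.log N ^ C := ⟨_, rfl⟩
      have hR1 : 1 ≤ R := by
        rw [hR]
        have := one_le_pow₀ hL1 (n := C)
        nlinarith
      have h2 : |(m : ℝ)| ≤ R := by
        rw [hR]
        refine le_trans ?_ hv
        have h3 : (a : ℝ) ≤ m := by exact_mod_cast hm.1.le
        have h4 : (m : ℝ) ≤ a + H := by exact_mod_cast hm.2
        have h5 := neg_abs_le (a : ℝ)
        have h6 := le_abs_self (a : ℝ)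
        have h7 : (0 : ℝ) ≤ H := Nat.cast_nonneg _
        rw [abs_le]
        constructor <;> linarith
      have h3 : R ^ 2 = N * Real.log N ^ (2 * C) := by
        rw [hR, mul_pow, sq (√(N : ℝ)), hsN, ← pow_mul, mul_comm C 2]
      have h4 : (m : ℝ) ^ 2 ≤ R ^ 2 := by
        rw [← sq_abs (m : ℝ)]
        exact pow_le_pow_left₀ (abs_nonneg _) h2 2
      have h5 := (abs_le.1 h2)
      have h6 : |3 * (m : ℝ) ^ 2 + 3 * m + 1| ≤ 7 * R ^ 2 := by
        rw [abs_le]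
        constructor <;> nlinarith
      refine h6.trans ?_
      rw [h3, pow_succ]
      have h7 : 0 ≤ (N : ℝ) * Real.log N ^ (2 * C) := by positivity
      nlinarith)
  refine ⟨Bad, k1, k2, fun v hv hvB h2 h3 z hz1 hz2 => ?_⟩
  obtain ⟨m1, m2⟩ := k3 v hv hvB (fun p hp => cube_adm v h2 h3 p hp) z hz1 hz2
  refine ⟨m1, ?_⟩
  have h4 := m2 1 (Or.inl rfl)
  unfold P M at h4
  simp only [cube_diff, one_mul] at h4
  exact h4

/-- **Primes among the differences of consecutive values in short windows, for almost all linear perturbations.**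
(1) Let `d ≥ 3` and `U, C ≥ 0`. There are `B` and `X₀` such that the following holds for `N ≥ X₀`, for every integer
polynomial `G` of degree `d` with a leading coefficient of absolute value at most `(log N)^C`, and for every window
`a < m ≤ a + H` of length `H ≥ N^(1/(3(d-1))) (log N)^B` on which `|G(m + 1) - G(m)| ≤ N (log N)^C`. For all but at most
`N / (log N)^U` of the integers `|v| ≤ N`: if no prime divides all the differences of consecutive values of `G(x) + v x`, then for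
all `z` with `(log N)^B ≤ z ≤ N^(1/3)` the product `S G v z` is positive and for `s = 1` and `s = -1` the number of the `m`
of the window for which `s diff` is prime differs from `S G v z ∑ 1 / log (s diff)` (over the `m` of the window with
`s diff ≥ 2`) by at most `S G v z H / (log N)^U`.
(2) The case `G = x³`, where the differences are `3 m² + 3 m + 1 + v` and no prime divides all of them if `v` is even and
`v ≢ 2 (mod 3)`: the windows of length `H ≥ N^(1/6) (log N)^B` in `|m| ≤ √N (log N)^C`. -/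
theorem result :
    (∀ d : ℕ, 3 ≤ d → ∀ U C : ℕ, ∃ B X₀ : ℕ, ∀ N : ℕ, X₀ ≤ N → ∀ G : ℤ[X], G.natDegree = d →
      |(G.leadingCoeff : ℝ)| ≤ Real.log N ^ C → ∀ (a : ℤ) (H : ℕ),
      (N : ℝ) ^ (1 / (3 * ((d : ℝ) - 1))) * Real.log N ^ B ≤ H →
      (∀ m ∈ Ioc a (a + H), |((G.eval (m + 1) - G.eval m : ℤ) : ℝ)| ≤ N * Real.log N ^ C) →
      ∃ Bad ⊆ Icc (-(N : ℤ)) N, (#Bad : ℝ) ≤ N / Real.log N ^ U ∧
      ∀ v ∈ Icc (-(N : ℤ)) N, v ∉ Bad → (∀ p : ℕ, p.Prime → ∃ m : ℤ, ¬ (p : ℤ) ∣ diff G v m) →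
      ∀ z : ℕ, Real.log N ^ B ≤ z → z ^ 3 ≤ N → 0 < S G v z ∧
      ∀ s : ℤ, (s = 1 ∨ s = -1) →
        |(P G s v a (a + H) : ℝ) - S G v z * M G s v a (a + H)| ≤ S G v z * H / Real.log N ^ U) ∧
    (∀ U C : ℕ, ∃ B X₀ : ℕ, ∀ N : ℕ, X₀ ≤ N → ∀ (a : ℤ) (H : ℕ),
      (N : ℝ) ^ ((1 : ℝ) / 6) * Real.log N ^ B ≤ H → |(a : ℝ)| + H ≤ √N * Real.log N ^ C →
      ∃ Bad ⊆ Icc (-(N : ℤ)) N, (#Bad : ℝ) ≤ N / Real.log N ^ U ∧
      ∀ v ∈ Icc (-(N : ℤ)) N, v ∉ Bad → v % 2 = 0 → v % 3 ≠ 2 → ∀ z : ℕ, Real.log N ^ B ≤ z → z ^ 3 ≤ N → 0 < S (X ^ 3) v z ∧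
        |(#((Ioc a (a + H)).filter (fun m : ℤ => Nat.Prime (3 * m ^ 2 + 3 * m + 1 + v).toNat)) : ℝ) -
          S (X ^ 3) v z * ∑ m ∈ (Ioc a (a + H)).filter (fun m : ℤ => 2 ≤ 3 * m ^ 2 + 3 * m + 1 + v),
            1 / Real.log ((3 * m ^ 2 + 3 * m + 1 + v : ℤ) : ℝ)| ≤ S (X ^ 3) v z * H / Real.log N ^ U) :=
  ⟨main, cubes⟩

end Pool.Agent.Results.MP_22d6bb_nt.DifferencesEveryWindow
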