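import Mathlib
import Pool.Agent.Run7.h373.QE.Gen
import Pool.Agent.Run7.h373.QE.Dif

/-!
# Primes among the differences of consecutive values of `G(x) + v x` in almost all windows of length `T log N`

Let `G` be an integer polynomial of degree `d ≥ 3`, for instance `G = x³`, with a bounded leading coefficient; the other
coefficients are arbitrary. For almost all pairs `(v, b)`, `|v| ≤ N`, `b` in ANY interval `[a, a + L)` of length
`L ≥ N^(1/(3(d-2))) (log N)^B` on which the differences `G(m + 1) - G(m)` are `O(N)`, the number of the primes among the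
differences of consecutive values of the polynomial `G(x) + v x` at the integers `b < m ≤ b + H` is given by the formula of
Bateman and Horn as soon as `H ≥ T log N`; the error is at most `ε` times the main term of a whole window of values of one
sign. In windows of this length the formula predicts a bounded number of primes, so the order of the length is the best
possible. For `G = x³` these are the numbers `3 m² + 3 m + 1 + v` (the cuban primes for `v = 0`), with `L ≥ N^(1/3) (log N)^B`.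

Proof. The theorem on the values `F(m) + v` at the optimal scale behind my hand-in `MP_4d57ea_nt.OptimalScale`, for
`F(x) = G(x + 1) - G(x)`, a polynomial of degree `d - 1` with the leading coefficient `d` times that of `G`.
-/

set_option autoImplicit false

namespace Pool.Agent.Results.MP_22d6bb_nt.DifferencesOptimalScale

open Finset
open Polynomial (X)
open scoped Polynomial

/-- the difference of the values of the polynomial `G(x) + v x` at `m + 1` and at `m` -/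
def diff (G : ℤ[X]) (v m : ℤ) : ℤ := (G.eval (m + 1) + v * (m + 1)) - (G.eval m + v * m)

/-- the number of the residues `r` modulo `p` for which `p` divides the difference at `r` -/
def rho (G : ℤ[X]) (v : ℤ) (p : ℕ) : ℕ := #((range p).filter (fun r : ℕ => (p : ℤ) ∣ diff G v r))

/-- the product of `(p - rho(p)) / (p - 1)` over the primes `p ≤ z` -/
noncomputable def S (G : ℤ[X]) (v : ℤ) (z : ℕ) : ℝ :=
  ∏ p ∈ (range (z + 1)).filter Nat.Prime, ((p : ℝ) - rho G v p) / ((p : ℝ) - 1)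

/-- the number of the integers `a < m ≤ b` for which `s` times the difference at `m` is a (positive) prime -/
noncomputable def P (G : ℤ[X]) (s v a b : ℤ) : ℕ := #((Ioc a b).filter (fun m : ℤ => Nat.Prime (s * diff G v m).toNat))

/-- the sum of `1 / log (s diff)` over the integers `a < m ≤ b` with `s diff ≥ 2` -/
noncomputable def M (G : ℤ[X]) (s v a b : ℤ) : ℝ :=
  ∑ m ∈ (Ioc a b).filter (fun m : ℤ => 2 ≤ s * diff G v m), 1 / Real.log ((s * diff G v m : ℤ) : ℝ)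

lemma diff_eq (G : ℤ[X]) (v m : ℤ) : diff G v m = (Run7.h373.QE.Dif.DG G).eval m + v := by
  unfold diff
  rw [Run7.h373.QE.Dif.DG_eval]
  ring

lemma rho_eq (G : ℤ[X]) (v : ℤ) (p : ℕ) : rho G v p = Run7.h373.QE.Gen.rho (Run7.h373.QE.Dif.DG G) v p := by
  unfold rho Run7.h373.QE.Gen.rho
  simp only [diff_eq]

lemma S_eq (G : ℤ[X]) (v : ℤ) (z : ℕ) : S G v z = Run7.h373.QE.Gen.S (Run7.h373.QE.Dif.DG G) v z := by
  unfold S Run7.h373.QE.Gen.S
  simp only [rho_eq]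

lemma P_eq (G : ℤ[X]) (s v a b : ℤ) : P G s v a b = Run7.h373.QE.Gen.P (Run7.h373.QE.Dif.DG G) s v a b := by
  unfold P Run7.h373.QE.Gen.P
  simp only [diff_eq]

lemma M_eq (G : ℤ[X]) (s v a b : ℤ) : M G s v a b = Run7.h373.QE.Gen.M (Run7.h373.QE.Dif.DG G) s v a b := by
  unfold M Run7.h373.QE.Gen.M
  simp only [diff_eq]

/-- the general statement -/
theorem main (d : ℕ) (hd : 3 ≤ d) (A : ℕ) (ε : ℝ) (hε : 0 < ε) : ∃ T : ℝ, 0 < T ∧ ∃ B X₀ : ℕ, ∀ N : ℕ, X₀ ≤ N →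
    ∀ G : ℤ[X], G.natDegree = d → |(G.leadingCoeff : ℝ)| ≤ A → ∀ (a : ℤ) (L H : ℕ),
    (N : ℝ) ^ (1 / (3 * ((d : ℝ) - 2))) * Real.log N ^ B ≤ L → T * Real.log N ≤ H →
    (∀ m ∈ Ioc a (a + L + H), |((G.eval (m + 1) - G.eval m : ℤ) : ℝ)| ≤ A * N) →
    ∃ Bad ⊆ Icc (-(N : ℤ)) N ×ˢ Ico a (a + L), (#Bad : ℝ) ≤ ε * (N * L) ∧
    ∀ v ∈ Icc (-(N : ℤ)) N, ∀ b ∈ Ico a (a + L), (v, b) ∉ Bad →
    (∀ p : ℕ, p.Prime → ∃ m : ℤ, ¬ (p : ℤ) ∣ diff G v m) →
    ∀ z : ℕ, Real.log N ^ B ≤ z → z ^ 3 ≤ N → 0 < S G v z ∧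
    ∀ s : ℤ, (s = 1 ∨ s = -1) →
      |(P G s v b (b + H) : ℝ) - S G v z * M G s v b (b + H)| ≤ ε * (S G v z * (H / Real.log N)) := by
  obtain ⟨e, he⟩ : ∃ e, d = e + 1 := ⟨d - 1, by omega⟩
  obtain ⟨T, hT, B, X₀, h0⟩ := Run7.h373.QE.Gen.opt e (by omega) (d * A) ε hε
  refine ⟨T, hT, B, X₀, fun N hN G hG hGl a L H hL hH hv => ?_⟩
  have hd0 : (0 : ℝ) ≤ d := Nat.cast_nonneg _
  have hA0 : (0 : ℝ) ≤ A := Nat.cast_nonneg _
  have hG' : G.natDegree = e + 1 := by rw [hG, he]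
  have her : (e : ℝ) = d - 1 := by rw [he]; push_cast; ring
  obtain ⟨Bad, k1, k2, k3⟩ := h0 N hN (Run7.h373.QE.Dif.DG G) (Run7.h373.QE.Dif.DG_deg G e hG') (by
      rw [Run7.h373.QE.Dif.DG_lead G e hG']
      push_cast
      rw [abs_mul, her, sub_add_cancel, abs_of_nonneg hd0]
      exact mul_le_mul_of_nonneg_left hGl hd0) a L H (by
      refine le_trans (le_of_eq ?_) hL
      rw [her]
      congr 3
      ring) hH (by
      intro m hm
      rw [Run7.h373.QE.Dif.DG_eval]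
      refine (hv m hm).trans ?_
      apply mul_le_mul_of_nonneg_right _ (Nat.cast_nonneg _)
      push_cast
      have hd1 : (1 : ℝ) ≤ d := by
        have : (3 : ℝ) ≤ d := by exact_mod_cast hd
        linarith
      nlinarith)
  refine ⟨Bad, k1, k2, fun v hv b hb hvB hadm z hz1 hz2 => ?_⟩
  obtain ⟨m1, m2⟩ := k3 v hv b hb hvB (fun p hp => by
    obtain ⟨m, hm⟩ := hadm p hp
    exact ⟨m, by rw [← diff_eq]; exact hm⟩) z hz1 hz2
  rw [S_eq]
  refine ⟨m1, fun s hs => ?_⟩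
  rw [P_eq, M_eq]
  exact m2 s hs

lemma cube_diff (v m : ℤ) : diff (X ^ 3) v m = 3 * m ^ 2 + 3 * m + 1 + v := by
  unfold diff
  simp only [Polynomial.eval_pow, Polynomial.eval_X]
  ring

/-- the local condition for the cubes -/
lemma cube_adm (v : ℤ) (h2 : v % 2 = 0) (h3 : v % 3 ≠ 2) (p : ℕ) (hp : p.Prime) : ∃ m : ℤ, ¬ (p : ℤ) ∣ diff (X ^ 3) v m := by
  by_contra hc
  push Not at hc
  have g0 := hc 0
  have g1 := hc 1
  have g2 := hc (-1)
  have g3 := hc 2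
  rw [cube_diff] at g0 g1 g2 g3
  have e1 : (p : ℤ) ∣ 6 := by
    have := dvd_sub g1 g0
    have e : (3 * (1 : ℤ) ^ 2 + 3 * 1 + 1 + v) - (3 * (0 : ℤ) ^ 2 + 3 * 0 + 1 + v) = 6 := by ring
    rwa [e] at this
  have e2 : p ∣ 6 := by exact_mod_cast e1
  have hp6 : p = 2 ∨ p = 3 := by
    have h6 : p ∣ 2 * 3 := e2
    rcases (Nat.Prime.dvd_mul hp).1 h6 with h | h
    · left; exact (Nat.prime_dvd_prime_iff_eq hp Nat.prime_two).1 h
    · right; exact (Nat.prime_dvd_prime_iff_eq hp Nat.prime_three).1 h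
  rcases hp6 with h | h
  · rw [h] at g0
    norm_num at g0
    omega
  · rw [h] at g0
    norm_num at g0
    omega

/-- the case of the cubes -/
theorem cubes (A : ℕ) (ε : ℝ) (hε : 0 < ε) : ∃ T : ℝ, 0 < T ∧ ∃ B X₀ : ℕ, ∀ N : ℕ, X₀ ≤ N → ∀ (a : ℤ) (L H : ℕ),
    (N : ℝ) ^ ((1 : ℝ) / 3) * Real.log N ^ B ≤ L → T * Real.log N ≤ H → |(a : ℝ)| + L + H ≤ A * √N →
    ∃ Bad ⊆ Icc (-(N : ℤ)) N ×ˢ Ico a (a + L), (#Bad : ℝ) ≤ ε * (N * L) ∧
    ∀ v ∈ Icc (-(N : ℤ)) N, ∀ b ∈ Ico a (a + L), (v, b) ∉ Bad → v % 2 = 0 → v % 3 ≠ 2 →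
    ∀ z : ℕ, Real.log N ^ B ≤ z → z ^ 3 ≤ N → 0 < S (X ^ 3) v z ∧
      |(#((Ioc b (b + H)).filter (fun m : ℤ => Nat.Prime (3 * m ^ 2 + 3 * m + 1 + v).toNat)) : ℝ) -
        S (X ^ 3) v z * ∑ m ∈ (Ioc b (b + H)).filter (fun m : ℤ => 2 ≤ 3 * m ^ 2 + 3 * m + 1 + v),
          1 / Real.log ((3 * m ^ 2 + 3 * m + 1 + v : ℤ) : ℝ)| ≤ ε * (S (X ^ 3) v z * (H / Real.log N)) := by
  obtain ⟨T, hT, B, X₀, h0⟩ := main 3 le_rfl (7 * (A + 1) ^ 2) ε hε
  refine ⟨T, hT, B, X₀ + 1, fun N hN a L H hL hH hv => ?_⟩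
  have hN0 : (0 : ℝ) ≤ N := Nat.cast_nonneg _
  have hA0 : (0 : ℝ) ≤ A := Nat.cast_nonneg _
  have hsN : √(N : ℝ) * √(N : ℝ) = N := Real.mul_self_sqrt hN0
  have hN1 : (1 : ℝ) ≤ N := by exact_mod_cast (by omega : 1 ≤ N)
  have hs1 : 1 ≤ √(N : ℝ) := by rw [Real.one_le_sqrt]; exact hN1
  have hdeg : (X ^ 3 : ℤ[X]).natDegree = 3 := by rw [Polynomial.natDegree_X_pow]
  have hlc : (X ^ 3 : ℤ[X]).leadingCoeff = 1 := Polynomial.leadingCoeff_X_pow 3
  obtain ⟨Bad, k1, k2, k3⟩ := h0 N (by omega) (X ^ 3) hdeg (by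
      rw [hlc]
      push_cast
      rw [abs_one]
      nlinarith) a L H (by
      refine le_trans (le_of_eq ?_) hL
      norm_num) hH (by
      intro m hm
      rw [mem_Ioc] at hm
      simp only [Polynomial.eval_pow, Polynomial.eval_X]
      have e : ((((m + 1) ^ 3 - m ^ 3 : ℤ)) : ℝ) = 3 * (m : ℝ) ^ 2 + 3 * m + 1 := by push_cast; ring
      rw [e]
      obtain ⟨R, hR⟩ : ∃ R, R = (A + 1) * √(N : ℝ) := ⟨_, rfl⟩
      have hR1 : 1 ≤ R := by
        rw [hR]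
        nlinarith
      have h2 : |(m : ℝ)| ≤ R := by
        rw [hR]
        have h3 : (a : ℝ) ≤ m := by exact_mod_cast hm.1.le
        have h4 : (m : ℝ) ≤ a + L + H := by exact_mod_cast hm.2
        have h5 := neg_abs_le (a : ℝ)
        have h6 := le_abs_self (a : ℝ)
        have h7 : (0 : ℝ) ≤ H := Nat.cast_nonneg _
        have h8 : (0 : ℝ) ≤ L := Nat.cast_nonneg _
        rw [abs_le]
        constructor <;> linarith
      have h3 : R ^ 2 = (A + 1) ^ 2 * N := by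
        rw [hR, mul_pow, sq (√(N : ℝ)), hsN]
      have h4 : (m : ℝ) ^ 2 ≤ R ^ 2 := by
        rw [← sq_abs (m : ℝ)]
        exact pow_le_pow_left₀ (abs_nonneg _) h2 2
      have h5 := (abs_le.1 h2)
      have h6 : |3 * (m : ℝ) ^ 2 + 3 * m + 1| ≤ 7 * R ^ 2 := by
        rw [abs_le]
        constructor <;> nlinarith
      refine h6.trans (le_of_eq ?_)
      rw [h3]
      push_cast
      ring)
  refine ⟨Bad, k1, k2, fun v hv b hb hvB h2 h3 z hz1 hz2 => ?_⟩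
  obtain ⟨m1, m2⟩ := k3 v hv b hb hvB (fun p hp => cube_adm v h2 h3 p hp) z hz1 hz2
  refine ⟨m1, ?_⟩
  have h4 := m2 1 (Or.inl rfl)
  unfold P M at h4
  simp only [cube_diff, one_mul] at h4
  exact h4

/-- **Primes among the differences of consecutive values at the optimal scale, for almost all linear perturbations.**
(1) Let `d ≥ 3`, `A ≥ 0` and `ε > 0`. There are `T > 0`, `B` and `X₀` such that the following holds for `N ≥ X₀`, for every
integer polynomial `G` of degree `d` with a leading coefficient of absolute value at most `A`, and for all `a`,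
`L ≥ N^(1/(3(d-2))) (log N)^B` and `H ≥ T log N` such that `|G(m + 1) - G(m)| ≤ A N` for `a < m ≤ a + L + H`. For all but at
most `ε N L` of the pairs `(v, b)` with `|v| ≤ N` and `a ≤ b < a + L`: if no prime divides all the differences of
consecutive values of `G(x) + v x`, then for all `z` with `(log N)^B ≤ z ≤ N^(1/3)` the product `S G v z` is positive and for
`s = 1` and `s = -1` the number of the `b < m ≤ b + H` for which `s diff` is prime differs from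
`S G v z ∑ 1 / log (s diff)` (over the `b < m ≤ b + H` with `s diff ≥ 2`) by at most `ε S G v z H / log N`.
(2) The case `G = x³`, where the differences are `3 m² + 3 m + 1 + v` and no prime divides all of them if `v` is even and
`v ≢ 2 (mod 3)`: `L ≥ N^(1/3) (log N)^B`, `H ≥ T log N` and `|a| + L + H ≤ A √N`. -/
theorem result :
    (∀ d : ℕ, 3 ≤ d → ∀ (A : ℕ) (ε : ℝ), 0 < ε → ∃ T : ℝ, 0 < T ∧ ∃ B X₀ : ℕ, ∀ N : ℕ, X₀ ≤ N →
      ∀ G : ℤ[X], G.natDegree = d → |(G.leadingCoeff : ℝ)| ≤ A → ∀ (a : ℤ) (L H : ℕ),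
      (N : ℝ) ^ (1 / (3 * ((d : ℝ) - 2))) * Real.log N ^ B ≤ L → T * Real.log N ≤ H →
      (∀ m ∈ Ioc a (a + L + H), |((G.eval (m + 1) - G.eval m : ℤ) : ℝ)| ≤ A * N) →
      ∃ Bad ⊆ Icc (-(N : ℤ)) N ×ˢ Ico a (a + L), (#Bad : ℝ) ≤ ε * (N * L) ∧
      ∀ v ∈ Icc (-(N : ℤ)) N, ∀ b ∈ Ico a (a + L), (v, b) ∉ Bad →
      (∀ p : ℕ, p.Prime → ∃ m : ℤ, ¬ (p : ℤ) ∣ diff G v m) →
      ∀ z : ℕ, Real.log N ^ B ≤ z → z ^ 3 ≤ N → 0 < S G v z ∧
      ∀ s : ℤ, (s = 1 ∨ s = -1) →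
        |(P G s v b (b + H) : ℝ) - S G v z * M G s v b (b + H)| ≤ ε * (S G v z * (H / Real.log N))) ∧
    (∀ (A : ℕ) (ε : ℝ), 0 < ε → ∃ T : ℝ, 0 < T ∧ ∃ B X₀ : ℕ, ∀ N : ℕ, X₀ ≤ N → ∀ (a : ℤ) (L H : ℕ),
      (N : ℝ) ^ ((1 : ℝ) / 3) * Real.log N ^ B ≤ L → T * Real.log N ≤ H → |(a : ℝ)| + L + H ≤ A * √N →
      ∃ Bad ⊆ Icc (-(N : ℤ)) N ×ˢ Ico a (a + L), (#Bad : ℝ) ≤ ε * (N * L) ∧
      ∀ v ∈ Icc (-(N : ℤ)) N, ∀ b ∈ Ico a (a + L), (v, b) ∉ Bad → v % 2 = 0 → v % 3 ≠ 2 →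
      ∀ z : ℕ, Real.log N ^ B ≤ z → z ^ 3 ≤ N → 0 < S (X ^ 3) v z ∧
        |(#((Ioc b (b + H)).filter (fun m : ℤ => Nat.Prime (3 * m ^ 2 + 3 * m + 1 + v).toNat)) : ℝ) -
          S (X ^ 3) v z * ∑ m ∈ (Ioc b (b + H)).filter (fun m : ℤ => 2 ≤ 3 * m ^ 2 + 3 * m + 1 + v),
            1 / Real.log ((3 * m ^ 2 + 3 * m + 1 + v : ℤ) : ℝ)| ≤ ε * (S (X ^ 3) v z * (H / Real.log N))) :=
  ⟨main, cubes⟩

end Pool.Agent.Results.MP_22d6bb_nt.DifferencesOptimalScale
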