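import Pool.Agent.Run7.h536.CE9

set_option autoImplicit false

/-!
# Primes `(n + h)³ - n³ + b n + c`: thin `h`, ALL `b`, almost all `c`

The cuban primes are the primes `(n + 1)³ - n³`. Here the shift `1` is replaced by an `h` from a family of integers of
size at most `H`, `X ^ (1/r) ≤ H ≤ X`, whose additive energy of some order is minimal up to a power of `log X` (for example
the integers whose digits satisfy arbitrary restrictions, the `k ^ e` with `k ≤ H ^ (1/e)`, the primes, the values of a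
fixed polynomial, and the dense subsets of these). For almost all `h` of the family, UNIFORMLY in ALL `|b| ≤ B H X` (so
that for example the cubes may be replaced by any polynomial `n³ + u n² + v n`, `|u| ≤ B X`), and for almost all
`|c| ≤ B H X²`, the number of the `n ≤ M` for which `(n + h)³ - n³ + b n + c` is a prime is given by the asymptotic formula
of Bateman and Horn, for all `M ≤ X`. The number `b` may depend on `h` and on all the data in an arbitrary way.

Proof. The polynomials have the thin leading coefficients `3 h` and arbitrary linear coefficients; the additive energy of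
such a family is bounded in `Run7.h536.CE1` to `CE4` (new); the circle method for correlations of primes along families of
nearly minimal energy (starting files, `TH872.Sq`, `R459.fam_near_fin`) and a maximal choice of the bad `b` (`CE5`, `CE6`)
give the result, the main term is computed with the fundamental lemma of the sieve (`LD3`).
-/

namespace Pool.Agent.Results.MP_22d6bb_nt.ThinShiftsAllLinearTerms

open Finset Polynomial

/-- The additive energy of order `h` of a family of integers: the number of the solutions of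
`v(i_1) + ⋯ + v(i_h) = v(j_1) + ⋯ + v(j_h)`. -/
noncomputable def energy (h : ℕ) {ι : Type} [Fintype ι] (v : ι → ℤ) : ℕ :=
  Nat.card {q : (Fin h → ι) × (Fin h → ι) // ∑ j, v (q.1 j) = ∑ j, v (q.2 j)}

/-- `(n + h)³ - n³ + b n + c`, a quadratic polynomial in `n`. -/
def D (h b c n : ℤ) : ℤ := (n + h) ^ 3 - n ^ 3 + b * n + c

/-- The number `ρ(p)` of the residues `n` modulo `p` with `(n + h)³ - n³ + b n + c ≡ 0`. -/
def rho (h b c : ℤ) (p : ℕ) : ℕ := ((range p).filter (fun n : ℕ => (p : ℤ) ∣ D h b c n)).card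

/-- The singular product `∏_{p ≤ z} (1 - 1/p)⁻¹ (1 - ρ(p)/p)`. -/
noncomputable def singular (h b c : ℤ) (z : ℕ) : ℝ :=
  ∏ p ∈ (Icc 1 z).filter Nat.Prime, ((1 - 1 / (p : ℝ))⁻¹ * (1 - (rho h b c p : ℝ) / p))

/-- Functions between `log` on the primes and the von Mangoldt function. -/
def PrimeLike (L : ℕ → ℝ) : Prop :=
  ∀ n, (if n.Prime then Real.log n else 0) ≤ L n ∧ L n ≤ ArithmeticFunction.vonMangoldt n

open Classical in
/-- The number of the integers `c`, `|c| ≤ N`, such that for some `M ≤ X` the sum of `L(|(n + h)³ - n³ + b n + c|)` over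
`1 ≤ n ≤ M` differs from `M ∏_{p ≤ z} (1 - 1/p)⁻¹ (1 - ρ(p)/p)` by more than `δ`. -/
noncomputable def exceptions (N X z : ℕ) (L : ℕ → ℝ) (δ : ℝ) (h b : ℤ) : ℕ :=
  ((Icc (-(N : ℤ)) N).filter (fun c : ℤ => ∃ M : ℕ, M ≤ X ∧
    δ < |∑ n ∈ Icc 1 M, L (D h b c (n : ℤ)).natAbs - M * singular h b c z|)).card

open Classical in
/-- Fix `k`, `r`, `B`, `C`, `U`. There is `B₀` such that for all `E` and all large `X`: let `H ≤ X ≤ H ^ r`, let `h_i`, `i ∈ ι`,
be a family of integers with `|h_i| ≤ B H` whose energy of order `k` is at most `(log X) ^ C |ι| ^ (2k) / H`, `z` an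
integer between `(log X) ^ B₀` and `(log X) ^ E`, and `L` a function between `log` on the primes and the von Mangoldt
function. Then for all but at most `|ι| / (log X) ^ U` of the `i ∈ ι`: for ALL integers `b` with `|b| ≤ B H X`, for all but at
most `H X² / (log X) ^ U` of the integers `c` with `|c| ≤ B H X²`: for all `M ≤ X` the sum of
`L(|(n + h_i)³ - n³ + b n + c|)` over `1 ≤ n ≤ M` is `M ∏_{p ≤ z} (1 - 1/p)⁻¹ (1 - ρ(p)/p)` up to `X / (log X) ^ U`. -/
theorem result (k r B C U : ℕ) (hk : 1 ≤ k) (hr : 1 ≤ r) (hB : 1 ≤ B) :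
    ∃ B₀ : ℕ, ∀ E : ℕ, ∃ x₀ : ℕ, ∀ X : ℕ, x₀ ≤ X → ∀ H : ℕ, H ≤ X → X ≤ H ^ r →
    ∀ (ι : Type) [Fintype ι] (h : ι → ℤ), (∀ i, |h i| ≤ B * H) →
    (energy k h : ℝ) * H ≤ Real.log X ^ C * (Fintype.card ι : ℝ) ^ (2 * k) →
    ∀ z : ℕ, Real.log X ^ B₀ ≤ z → (z : ℝ) ≤ Real.log X ^ E → ∀ L : ℕ → ℝ, PrimeLike L →
    ((univ.filter (fun i : ι => ∃ b : ℤ, |b| ≤ B * (H * X) ∧
      ((H * X ^ 2 : ℕ) : ℝ) / Real.log X ^ U <
        exceptions (B * (H * X ^ 2)) X z L (X / Real.log X ^ U) (h i) b)).card : ℝ) ≤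
      Fintype.card ι / Real.log X ^ U := by
  obtain ⟨K, hK⟩ : ∃ K : ℕ, K = 14 * B + 6 * B ^ 2 + B ^ 3 := ⟨_, rfl⟩
  have hBK : B ≤ K := by rw [hK]; nlinarith [Nat.zero_le (B ^ 2), Nat.zero_le (B ^ 3)]
  obtain ⟨B0, h0⟩ := Pool.Agent.Run7.h536.CE.cross_one 2 k le_rfl hk r K C U hr (hB.trans hBK)
  refine ⟨B0, fun E => ?_⟩
  obtain ⟨x0, h1⟩ := h0 E
  refine ⟨x0 + 1, fun X hX H hH1 hH2 ι _ h hh hE z hz1 hz2 L hL => ?_⟩
  refine le_trans (Nat.cast_le.2 (card_le_card ?_)) (h1 X (by omega) H (hH1.trans (Nat.le_self_pow (by omega) X)) hH2 ι h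
    (fun i => (hh i).trans (mul_le_mul_of_nonneg_right (by exact_mod_cast hBK) (Int.natCast_nonneg H))) hE 3 (by norm_num) z hz1 hz2 L hL)
  intro i hi
  rw [mem_filter] at hi ⊢
  obtain ⟨_, b, hb, hb2⟩ := hi
  obtain ⟨f, hf⟩ : ∃ f : ℤ[X], f = Polynomial.C (3 * h i) * Polynomial.X ^ 2 + Polynomial.C (3 * h i ^ 2 + b) * Polynomial.X +
    Polynomial.C (h i ^ 3) := ⟨_, rfl⟩
  have hev : ∀ n c : ℤ, f.eval n + c = D (h i) b c n := by
    intro n c
    rw [hf]
    unfold D
    simp only [eval_add, eval_mul, eval_C, eval_pow, eval_X]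
    ring
  refine ⟨mem_univ _, f, ?_, ?_, ?_, ?_⟩
  · rw [hf]
    compute_degree
  · rw [hf, coeff_add, coeff_add, coeff_C_mul, coeff_C_mul, coeff_X_pow, coeff_X, if_pos rfl, if_neg (by norm_num),
      coeff_C, if_neg (by norm_num)]
    ring
  · intro m hm
    rw [mem_range] at hm
    have hm' : (m : ℤ) ≤ 2 * X := by exact_mod_cast hm.le
    have hm0 : (0 : ℤ) ≤ m := Int.natCast_nonneg m
    have hX0 : (0 : ℤ) ≤ X := Int.natCast_nonneg X
    have hH0 : (0 : ℤ) ≤ H := Int.natCast_nonneg H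
    have hB0 : (0 : ℤ) ≤ B := Int.natCast_nonneg B
    have hHX : (H : ℤ) ≤ X := by exact_mod_cast hH1
    have hhi := hh i
    rw [hf]
    simp only [eval_add, eval_mul, eval_C, eval_pow, eval_X]
    have e1 : |3 * h i * (m : ℤ) ^ 2| ≤ 12 * (B : ℤ) * ((H : ℤ) * (X : ℤ) ^ 2) := by
      rw [abs_mul, abs_mul, abs_of_nonneg (pow_nonneg hm0 2), abs_of_nonneg (by norm_num : (0 : ℤ) ≤ 3)]
      calc 3 * |h i| * (m : ℤ) ^ 2 ≤ 3 * (B * H) * (2 * X) ^ 2 :=
            mul_le_mul (mul_le_mul_of_nonneg_left hhi (by norm_num)) (pow_le_pow_left₀ hm0 hm' 2) (pow_nonneg hm0 2) (by positivity)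
        _ = _ := by ring
    have hH2' : (H : ℤ) ^ 2 ≤ H * X := by rw [sq]; exact mul_le_mul_of_nonneg_left hHX hH0
    have e2 : |(3 * h i ^ 2 + b) * (m : ℤ)| ≤ (6 * (B : ℤ) ^ 2 + 2 * B) * ((H : ℤ) * (X : ℤ) ^ 2) := by
      rw [abs_mul, abs_of_nonneg hm0]
      have e3 : |3 * h i ^ 2 + b| ≤ (3 * (B : ℤ) ^ 2 + B) * ((H : ℤ) * X) := by
        refine (abs_add_le _ _).trans ?_
        rw [abs_mul, abs_pow, abs_of_nonneg (by norm_num : (0 : ℤ) ≤ 3)]
        have e4 : |h i| ^ 2 ≤ ((B : ℤ) * H) ^ 2 := pow_le_pow_left₀ (abs_nonneg _) hhi 2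
        have e5 : ((B : ℤ) * H) ^ 2 ≤ (B : ℤ) ^ 2 * ((H : ℤ) * X) := by
          rw [mul_pow]
          exact mul_le_mul_of_nonneg_left hH2' (by positivity)
        nlinarith
      calc |3 * h i ^ 2 + b| * (m : ℤ) ≤ ((3 * B ^ 2 + B) * (H * X)) * (2 * X) := mul_le_mul e3 hm' hm0 (by positivity)
        _ = _ := by ring
    have e6 : |h i ^ 3| ≤ (B : ℤ) ^ 3 * ((H : ℤ) * (X : ℤ) ^ 2) := by
      rw [abs_pow]
      calc |h i| ^ 3 ≤ (B * H) ^ 3 := pow_le_pow_left₀ (abs_nonneg _) hhi 3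
        _ = B ^ 3 * (H * H ^ 2) := by ring
        _ ≤ B ^ 3 * (H * X ^ 2) := by
            apply mul_le_mul_of_nonneg_left _ (by positivity)
            exact mul_le_mul_of_nonneg_left (pow_le_pow_left₀ hH0 hHX 2) hH0
    refine (abs_add_le _ _).trans ((add_le_add ((abs_add_le _ _).trans (add_le_add e1 e2)) e6).trans (le_of_eq ?_))
    rw [hK]
    push_cast
    ring
  · refine lt_of_lt_of_le hb2 (Nat.cast_le.2 (card_le_card ?_))
    intro c hc
    rw [mem_filter] at hc ⊢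
    obtain ⟨hc1, M, hM1, hM2⟩ := hc
    have hN2 : (0 : ℤ) ≤ (((H * X ^ 2 : ℕ)) : ℤ) := Int.natCast_nonneg _
    have hbig : ((B * (H * X ^ 2) : ℕ) : ℤ) ≤ (K : ℤ) * (((H * X ^ 2 : ℕ)) : ℤ) := by
      rw [Nat.cast_mul]
      exact mul_le_mul_of_nonneg_right (by exact_mod_cast hBK) hN2
    have hc2 := mem_Icc.1 hc1
    refine ⟨mem_Icc.2 ⟨by linarith [hc2.1], by linarith [hc2.2]⟩, M, hM1, ?_⟩
    have hrho : ∀ p : ℕ, Pool.Agent.Run7.h536.MT.rho (f + Polynomial.C c) p = rho (h i) b c p := by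
      intro p
      unfold Pool.Agent.Run7.h536.MT.rho rho
      congr 1
      apply filter_congr
      intro n _
      rw [eval_add, eval_C, hev]
    simp only [hrho, hev]
    exact hM2

end Pool.Agent.Results.MP_22d6bb_nt.ThinShiftsAllLinearTerms
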